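import Pool.Agent.helper70.QSD.SpecA

/-! # qsd:INT (MP_7a3aac_co): poles of an integral element -/

namespace Pool.Agent.helper70.QSD

open Pool.Agent.helper53.AU
open scoped Classical IntermediateField Polynomial

theorem INT : INT_stmt := by
  intro k F _ _ _ s z d a ha hd h0 P
  have key : P.Ge (-((d : ℤ) * max (-P.ord s) 0)) z := by
    obtain ⟨e, he⟩ : ∃ e : ℤ, e = max (-P.ord s) 0 := ⟨_, rfl⟩
    rw [← he]
    have he0 : 0 ≤ e := by rw [he]; exact le_max_right _ _
    have hs : P.Ge (-e) s := by
      right
      have := le_max_left (-P.ord s) 0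
      omega
    have hcoef : ∀ i, P.Ge (-((d : ℤ) * e)) (Polynomial.aeval s (a.coeff i)) := by
      intro i
      rw [Polynomial.aeval_eq_sum_range]
      apply Place.Ge.sum
      intro j hj
      apply Place.Ge.smul
      refine (hs.pow j).mono ?_
      have hj' : j ≤ d := (Nat.lt_succ_iff.1 (Finset.mem_range.1 hj)).trans (hd i)
      have hj2 : (j : ℤ) ≤ d := by exact_mod_cast hj'
      nlinarith
    by_contra hcon
    have hz : z ≠ 0 := fun h => hcon (Or.inl h)
    have hlt : P.ord z < -((d : ℤ) * e) := by
      by_contra h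
      exact hcon (Or.inr (not_lt.1 h))
    have hde : 0 ≤ (d : ℤ) * e := mul_nonneg (Int.natCast_nonneg d) he0
    have h1 : ev s z a = ∑ i ∈ Finset.range (a.natDegree + 1),
        Polynomial.aeval s (a.coeff i) * z ^ i := by
      unfold ev
      rw [Polynomial.eval₂_eq_sum_range]
      rfl
    rw [h0, Finset.sum_range_succ, Polynomial.Monic.coeff_natDegree ha, map_one, one_mul] at h1
    have h2 : P.Ge (a.natDegree * P.ord z + 1)
        (∑ i ∈ Finset.range a.natDegree, Polynomial.aeval s (a.coeff i) * z ^ i) := by
      apply Place.Ge.sum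
      intro i hi
      refine ((hcoef i).mul ((P.ge_ord z).pow i)).mono ?_
      have hi' : (i : ℤ) + 1 ≤ a.natDegree := by exact_mod_cast Finset.mem_range.1 hi
      nlinarith
    have h3 : z ^ a.natDegree =
        -∑ i ∈ Finset.range a.natDegree, Polynomial.aeval s (a.coeff i) * z ^ i := by
      exact (neg_eq_of_add_eq_zero_right h1.symm).symm
    have h4 := h2.neg
    rw [← h3] at h4
    have h5 := h4.le (pow_ne_zero _ hz)
    rw [P.ord_pow hz] at h5
    omega
  refine ⟨fun hs => ?_, key⟩
  have he : max (-P.ord s) 0 = 0 := by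
    apply max_eq_right
    by_cases h : s = 0
    · rw [h, P.ord_zero]; simp
    · have := hs.le h
      omega
  rw [he] at key
  simpa using key

end Pool.Agent.helper70.QSD
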